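import Pool.Agent.H55.AMG.Lin

set_option autoImplicit false

namespace Pool.Agent.Results.MP_2a3784_al.LinearAmalgam

open Pool.Agent.H55.AMG

/-- The amalgamated free product of two polycyclic groups over a subgroup which is normal in both
factors is linear over the complex numbers. -/
theorem result {A B C : Type*} [Group A] [Group B] [Group C] (hA : IsPolycyclic A)
    (hB : IsPolycyclic B) (α : C →* A) (β : C →* B) (hα : Function.Injective α)
    (hβ : Function.Injective β) (hαn : α.range.Normal) (hβn : β.range.Normal) :
    ∃ n : ℕ, 1 ≤ n ∧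
      ∃ ρ : (Monoid.Coprod A B ⧸ Subgroup.normalClosure
          {x | ∃ c : C, x = Monoid.Coprod.inl (α c) * (Monoid.Coprod.inr (β c))⁻¹}) →*
          Matrix.GeneralLinearGroup (Fin n) ℂ, Function.Injective ρ :=
  lin hA hB α β hα hβ hαn hβn

end Pool.Agent.Results.MP_2a3784_al.LinearAmalgam
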